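import Mathlib
import Pool.Agent.W425.GN.GenF

/-!
# The equivariant motivic monodromy conjecture, strong form, for generic coefficients

Let `f = ∑_j c_j x ^ (v j) + h` be a polynomial in `n` variables over a field `k ⊂ ℂ`, where `h` is an
ARBITRARY polynomial over a subfield `F ⊂ k`, whose exponents are in the Newton polyhedron
`conv {v j} + ℝ_{≥ 0} ^ n`, and the coefficients `c_j ∈ k` are generic: `g(c) ≠ 0` for a certain nonzero
polynomial `g` with coefficients in `F` (`k = F` is allowed).

If no candidate pole `- |a| / N_a ≠ -1` comes only from `B1`-facets of the Newton polyhedron, then the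
motivic zeta function of Denef and Loeser, with coefficients in the localised Grothendieck ring of
varieties over `X_s = {f = 0}` with action of `μ̂`, lies in the ring generated by `T` and finitely many
`1 / (1 - 𝕃 ^ a T ^ b)` with `a < 0 < b` and `a / b` a root of the Bernstein-Sato polynomial of `f`.
-/

set_option autoImplicit false

namespace Pool.Agent.Results.MP_b48657_ag.GenericCoefficients

open MvPolynomial Pool.Agent.W428.MOT Pool.Agent.W425.MM Pool.Agent.W425.ND

/-- The polynomial `f = ∑_j c_j x ^ (v j) + h` over the field `k`. -/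
noncomputable def poly {F k : Type} [Field F] [Field k] [Algebra F k] {n r : ℕ}
    (v : Fin r → Fin n → ℕ) (c : Fin r → k) (h : MvPolynomial (Fin n) F) :
    MvPolynomial (Fin n) k := spa v c + MvPolynomial.map (algebraMap F k) h

/-- For all `(a, b) ∈ S` one has `a < 0 < b`, and `a / b` is a root of the Bernstein-Sato polynomial of
`f` (of every `b`-function of `f`). -/
def Roots {n : ℕ} (f : MvPolynomial (Fin n) ℂ) (S : Finset (ℤ × ℤ)) : Prop :=
  ∀ p ∈ S, p.1 < 0 ∧ 0 < p.2 ∧ ∀ b : Polynomial ℂ, Pool.Agent.H628R4.TP.IsBFunction f b →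
    b.eval ((p.1 : ℂ) / p.2) = 0

/-- **The equivariant motivic monodromy conjecture (Bernstein-Sato form, global form over `X_s`,
with the action of `μ̂`) for the polynomials `f = ∑_j c_j x ^ (v j) + h` with generic coefficients
`c_j` and without candidate poles which come only from `B1`-facets.**

`poly v c h` is the polynomial `f = ∑_j c_j x ^ (v j) + h`. `NP v w` says that `w` is in the Newton
polyhedron `conv {v j} + ℝ_{≥ 0} ^ n`.

`NoB1s v False` says that for every ray `a` of the normal fan of the Newton polyhedron (`IsRay v a`)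
with `N_a := gord v a = min_j ⟨a, v j⟩ > 0` either `|a| = N_a`, or `|a| / N_a = |a'| / N_{a'}`
for some `a' ∈ ℕ ^ n` with `N_{a'} > 0` and `NonB v False a'`: there is a set `J` of `#{i | a' i ≠ 0}`
elements with `⟨a', v j⟩ = N_{a'}` for `j ∈ J` such that the vectors `(v j i)_{a' i ≠ 0}`, `j ∈ J`, are
linearly independent and such that no variable `x_i` with `a' i ≠ 0` occurs in exactly one of the
monomials `x ^ (v j)`, `j ∈ J`, and there with exponent `1`.

`IsBFunction f b` says that `b(s) f ^ s = P(s) f ^ (s + 1)` for a differential operator `P(s)` in the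
Weyl algebra, polynomial in `s`; the Bernstein-Sato polynomial `b_f` is one of these polynomials
`b`. -/
theorem result (F : Type) [Field F] [Algebra F ℂ] {n r : ℕ} (hr : 1 ≤ r) (v : Fin r → Fin n → ℕ)
    (hv : Function.Injective v) (hv0 : ∀ j, v j ≠ 0)
    (h : MvPolynomial (Fin n) F) (hh : ∀ w ∈ h.support, Pool.Agent.W425.SV.NP v w)
    (hB : NoB1s v False) :
    ∃ g : MvPolynomial (Fin r) F, g ≠ 0 ∧
      ∀ (k : Type) [Field k] [Algebra F k] [Algebra k ℂ] [IsScalarTower F k ℂ] (c : Fin r → k),
      aeval c g ≠ 0 →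
      ∃ S : Finset (ℤ × ℤ), Roots (poly v (fun j => algebraMap k ℂ (c j)) h) S ∧
        InRat (LuMu (poly v c h)) S (zetaE (poly v c h)) := by
  obtain ⟨g, hg, hgz⟩ := Pool.Agent.W425.GN.gen_motF (F := F) (show 0 < r by omega) v hv hv0 h hh hB
  refine ⟨g, hg, fun k _ _ _ _ c hc => ?_⟩
  obtain ⟨S, hS, -, hz⟩ := hgz k c (fun h0 => hc (by
    have h1 : algebraMap k ℂ (aeval c g) = 0 := by
      rw [← h0, ← aeval_algebraMap_apply]
      rfl
    exact (map_eq_zero _).1 h1))
  exact ⟨S, hS, hz⟩

end Pool.Agent.Results.MP_b48657_ag.GenericCoefficients
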