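import Mathlib
import Pool.Agent.W425.MM.StrongE

/-!
# The equivariant motivic monodromy conjecture, weak form, for nondegenerate polynomials

Let `k` be a field, `k ⊂ ℂ`, and let `f = ∑_j c_j x ^ (v j) ∈ k[x_1, …, x_n]`, `f(0) = 0`, be
nondegenerate with respect to its Newton polytope. No further genericity is assumed; the number of
variables and the singularities are arbitrary (they need not be isolated).

The only hypothesis on the polytope is that for every facet of the Newton polyhedron, with inner
normal vector `a`, either the candidate pole `- |a| / N_a` is an integer or it is congruent modulo `ℤ`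
to the value of a facet `a'` which contains a simplex that is not of type `B1`.

Then the equivariant motivic monodromy conjecture holds for `f`: the motivic zeta function of Denef
and Loeser, with coefficients in the localised Grothendieck ring of varieties over `X_s = {f = 0}` with
action of `μ̂`, lies in the ring generated by `T` and finitely many `1 / (1 - 𝕃 ^ a T ^ b)` with
`a < 0 < b` such that `a / b - i` is a root of the Bernstein-Sato polynomial of `f` for an integer `i`; by
the theorem of Malgrange and Kashiwara `exp(2 π i a / b)` is an eigenvalue of the monodromy of `f` at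
some point of `{f = 0}`.
-/

set_option autoImplicit false

namespace Pool.Agent.Results.MP_b48657_ag.NondegenerateEquivariant

open MvPolynomial Pool.Agent.W428.MOT Pool.Agent.W425.MM Pool.Agent.W425.ND

/-- **The equivariant motivic monodromy conjecture (over `X_s`, with the action of `μ̂`) for all
polynomials `f = ∑_j c_j x ^ (v j)` over `k ⊂ ℂ` which are nondegenerate with respect to their Newton
polytope and satisfy `NoB1`.**

`spa v c` is the polynomial `∑_j c_j x ^ (v j)`; the `c j` may be zero, so that the `v j` may include
all the lattice points of the polytope. `Nondeg v c` says that for every face of the convex hull of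
the `v j` (the face where the linear form `w ∈ ℝ ^ n` is minimal) the face polynomial and its
logarithmic derivatives have no common zero in `(ℂ \ 0) ^ n`.

`NoB1 v False` says that for every ray `a` of the normal fan of the Newton polyhedron (`IsRay v a`)
with `N_a := gord v a = min_j ⟨a, v j⟩ > 0` either `N_a` divides `|a|`, or `|a| / N_a - |a'| / N_{a'} ∈ ℤ`
for some `a' ∈ ℕ ^ n` with `N_{a'} > 0` and `NonB v False a'`: there is a set `J` of `#{i | a' i ≠ 0}`
elements with `⟨a', v j⟩ = N_{a'}` for `j ∈ J` such that the vectors `(v j i)_{a' i ≠ 0}`, `j ∈ J`, are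
linearly independent and such that no variable `x_i` with `a' i ≠ 0` occurs in exactly one of the
monomials `x ^ (v j)`, `j ∈ J`, and there with exponent `1`.

`IsBFunction f b` says that `b(s) f ^ s = P(s) f ^ (s + 1)` for a differential operator `P(s)` in the
Weyl algebra, polynomial in `s`; the Bernstein-Sato polynomial `b_f` is one of these polynomials
`b`. -/
theorem result (k : Type) [Field k] [Algebra k ℂ] {n r : ℕ} (hr : 1 ≤ r)
    (v : Fin r → Fin n → ℕ) (c : Fin r → k) (hv : Function.Injective v) (hv0 : ∀ j, v j ≠ 0)
    (hnd : Nondeg v (fun j => algebraMap k ℂ (c j))) (hB : NoB1 v False) :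
    ∃ S : Finset (ℤ × ℤ),
      (∀ p ∈ S, p.1 < 0 ∧ 0 < p.2 ∧ ∀ b : Polynomial ℂ,
        Pool.Agent.H628R4.TP.IsBFunction (spa v (fun j => algebraMap k ℂ (c j))) b →
          ∃ i : ℤ, b.eval ((p.1 : ℂ) / p.2 - i) = 0) ∧
      InRat (LuMu (spa v c)) S (zetaE (spa v c)) := by
  obtain ⟨S, hS, hz⟩ := mainE hr v c hv hnd False hB
  refine ⟨S, fun p hp => ⟨(hS p hp).1, (hS p hp).2.1, fun b hb => ?_⟩, hz⟩
  obtain ⟨h1, h2⟩ := of_global v hr _ hv hv0 hnd b hb
  exact (hS p hp).2.2 b h1 h2

end Pool.Agent.Results.MP_b48657_ag.NondegenerateEquivariant
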